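import Mathlib

/-!
# MP_09fe95_al: induced group-module summands in tensor powers of monoid modules

For every finite monoid `M` with group of units `Mˣ`, every field `k`, and every nonzero finite-dimensional
`kM`-module `V` on which only the identity element of `M` acts as the identity map, some tensor power
`V^{⊗ n}` with `n ≥ 1` has a direct summand `Ind(W)` with `W` a nonzero `k Mˣ`-module.
-/

set_option autoImplicit false

namespace Pool.Agent.Results.MP_09fe95_al.InducedSummand

open scoped TensorProduct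

universe u v w

variable {k : Type u} [Field k] {M : Type v} [Monoid M]

/-- The `n`-th tensor power of a module of the monoid `M`, with the diagonal action
`m (v₁ ⊗ ⋯ ⊗ vₙ) = m v₁ ⊗ ⋯ ⊗ m vₙ`. -/
noncomputable def tensorPow {V : Type w} [AddCommGroup V] [Module k V]
    (ρ : Representation k M V) (n : ℕ) : Representation k M (⨂[k] _ : Fin n, V) where
  toFun m := PiTensorProduct.map (fun _ => ρ m)
  map_one' := by
    rw [map_one]
    exact PiTensorProduct.map_one
  map_mul' a b := by
    rw [map_mul]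
    exact PiTensorProduct.map_mul _ _

/-- The `kM`-module `Ind(W)`: the units act as on `W`, the non-units act as zero. -/
noncomputable def ind [Finite M] {W : Type w} [AddCommGroup W] [Module k W]
    (σ : Representation k Mˣ W) : Representation k M W where
  toFun m := open Classical in if h : IsUnit m then σ h.unit else 0
  map_one' := by
    rw [dif_pos isUnit_one]
    have h : (isUnit_one : IsUnit (1 : M)).unit = 1 := Units.ext rfl
    rw [h, map_one]
  map_mul' a b := by
    classical
    by_cases ha : IsUnit a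
    · by_cases hb : IsUnit b
      · rw [dif_pos ha, dif_pos hb, dif_pos (ha.mul hb), ← map_mul]
        congr 1
        exact Units.ext rfl
      · rw [dif_pos ha, dif_neg hb, dif_neg, mul_zero]
        intro h
        exact hb ((ha.unit).isUnit_units_mul b |>.1 h)
    · rw [dif_neg ha, dif_neg, zero_mul]
      intro h
      exact ha (isUnit_of_mul_isUnit_left h)

section Main

variable {V : Type w} [AddCommGroup V] [Module k V]

theorem tensorPow_tprod (ρ : Representation k M V) (n : ℕ) (m : M) (x : Fin n → V) :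
    tensorPow ρ n m (PiTensorProduct.tprod k x) = PiTensorProduct.tprod k (fun i => ρ m (x i)) :=
  PiTensorProduct.map_tprod _ _

theorem unit_not_mul {M : Type v} [Monoid M] [Finite M] {m : M} (hm : ¬ IsUnit m) (g : Mˣ) :
    ¬ IsUnit (m * (g : M)) := fun h => hm (g.isUnit_mul_units m |>.1 h)

theorem not_unit_mul {M : Type v} [Monoid M] [Finite M] {m : M} (hm : ¬ IsUnit m) (g : Mˣ) :
    ¬ IsUnit ((g : M) * m) := fun h => hm (g.isUnit_units_mul m |>.1 h)

/-- The main construction. -/
theorem main_construction [Finite M] [Nontrivial V] (ρ : Representation k M V) (hρ : ∀ m : M, ρ m = 1 → m = 1)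
    (n : ℕ) (x : Fin n → V) (F : Fin n → (V →ₗ[k] k)) (hF : ∀ i, F i (x i) = 1)
    (h1 : ∀ m : M, ¬ IsUnit m → ∃ i, ρ m (x i) = 0)
    (h2 : ∀ m : M, ¬ IsUnit m → ∃ i, (F i).comp (ρ m) = 0)
    (h3 : ∀ g : Mˣ, (¬ ∃ c : k, ρ (g : M) = c • LinearMap.id) → ∃ i, F i (ρ (g : M) (x i)) = 0) :
    ∃ (W : Submodule k (⨂[k] _ : Fin n, V)) (_ : Nontrivial W) (_ : FiniteDimensional k W)
      (σ : Representation k Mˣ W)
      (i : W →ₗ[k] ⨂[k] _ : Fin n, V) (p : (⨂[k] _ : Fin n, V) →ₗ[k] W),
        (∀ m : M, i ∘ₗ ind σ m = tensorPow ρ n m ∘ₗ i) ∧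
        (∀ m : M, p ∘ₗ tensorPow ρ n m = ind σ m ∘ₗ p) ∧
        p ∘ₗ i = LinearMap.id := by
  classical
  have : Fintype Mˣ := Fintype.ofFinite _
  set T := tensorPow ρ n with hT
  set X : ⨂[k] _ : Fin n, V := PiTensorProduct.tprod k x with hX
  let Ft : (⨂[k] _ : Fin n, V) →ₗ[k] k :=
    PiTensorProduct.lift ((MultilinearMap.mkPiAlgebra k (Fin n) k).compLinearMap F)
  have hFt : ∀ y : Fin n → V, Ft (PiTensorProduct.tprod k y) = ∏ i, F i (y i) := by
    intro y
    simp [Ft]
  have hFtX : Ft X = 1 := by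
    rw [hX, hFt]
    exact Finset.prod_eq_one fun i _ => hF i
  -- non-units kill `X`, and the functional kills their image
  have hTX : ∀ m : M, ¬ IsUnit m → T m X = 0 := by
    intro m hm
    obtain ⟨i, hi⟩ := h1 m hm
    rw [hX, hT, tensorPow_tprod]
    exact MultilinearMap.map_coord_zero _ i hi
  have hFT : ∀ m : M, ¬ IsUnit m → Ft ∘ₗ T m = 0 := by
    intro m hm
    obtain ⟨i, hi⟩ := h2 m hm
    refine PiTensorProduct.ext (MultilinearMap.ext fun y => ?_)
    show Ft (T m (PiTensorProduct.tprod k y)) = 0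
    rw [hT, tensorPow_tprod, hFt]
    refine Finset.prod_eq_zero (Finset.mem_univ i) ?_
    exact LinearMap.congr_fun hi (y i)
  -- the subgroup of units acting as scalars
  let Z : Subgroup Mˣ :=
    { carrier := {g | ∃ c : k, ρ (g : M) = c • LinearMap.id}
      mul_mem' := by
        rintro a b ⟨c, hc⟩ ⟨d, hd⟩
        refine ⟨c * d, ?_⟩
        rw [Units.val_mul, map_mul, hc, hd]
        refine LinearMap.ext fun v => ?_
        show c • (d • v) = (c * d) • v
        rw [mul_smul]
      one_mem' := ⟨1, by rw [Units.val_one, map_one, one_smul]; rfl⟩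
      inv_mem' := by
        rintro a ⟨c, hc⟩
        have h : ρ ((a⁻¹ : Mˣ) : M) * ρ (a : M) = 1 := by
          rw [← map_mul, Units.inv_mul, map_one]
        have h' : c • ρ ((a⁻¹ : Mˣ) : M) = 1 := by
          rw [← h, hc]
          refine LinearMap.ext fun v => ?_
          show c • (ρ ((a⁻¹ : Mˣ) : M) v) = ρ ((a⁻¹ : Mˣ) : M) (c • v)
          rw [map_smul]
        by_cases hc0 : c = 0
        · refine ⟨0, ?_⟩
          rw [hc0, zero_smul] at h'
          rw [zero_smul]
          refine LinearMap.ext fun v => ?_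
          have h4 := LinearMap.congr_fun h' (ρ ((a⁻¹ : Mˣ) : M) v)
          exact h4.symm
        · refine ⟨c⁻¹, ?_⟩
          show ρ ((a⁻¹ : Mˣ) : M) = c⁻¹ • 1
          rw [← h', smul_smul, inv_mul_cancel₀ hc0, one_smul] }
  have hZ : ∀ g : Mˣ, g ∈ Z ↔ ∃ c : k, ρ (g : M) = c • LinearMap.id := fun g => Iff.rfl
  -- the order of this subgroup is invertible in the field
  obtain ⟨v0, hv0⟩ := exists_ne (0 : V)
  have hZk : (Nat.card Z : k) ≠ 0 := by
    intro h0
    obtain ⟨p, hp⟩ := CharP.exists k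
    have hdvd : p ∣ Nat.card Z := (CharP.cast_eq_zero_iff k p _).1 h0
    have hpp : p.Prime := by
      rcases CharP.char_is_prime_or_zero k p with h | h
      · exact h
      · rw [h, zero_dvd_iff] at hdvd
        exact absurd hdvd Nat.card_pos.ne'
    have : Fact p.Prime := ⟨hpp⟩
    obtain ⟨z, hz⟩ := exists_prime_orderOf_dvd_card' p hdvd
    obtain ⟨c, hc⟩ := (hZ z).1 z.2
    have hpow : ∀ m : ℕ, ρ (((z : Mˣ) ^ m : Mˣ) : M) = (c ^ m) • LinearMap.id := by
      intro m
      induction m with
      | zero => rw [pow_zero, pow_zero, Units.val_one, map_one, one_smul]; rfl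
      | succ m ih =>
        rw [pow_succ, Units.val_mul, map_mul, ih, hc, pow_succ]
        refine LinearMap.ext fun v => ?_
        show c ^ m • (c • v) = (c ^ m * c) • v
        rw [mul_smul]
    have h1 : (z : Mˣ) ^ p = 1 := by
      have h2 : z ^ p = 1 := by rw [← hz]; exact pow_orderOf_eq_one z
      have h3 := congrArg (fun y : Z => (y : Mˣ)) h2
      simpa using h3
    have h2 := hpow p
    rw [h1, Units.val_one, map_one] at h2
    have h3 : c ^ p = 1 := by
      have h4 := LinearMap.congr_fun h2 v0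
      have h5 : (1 : k) • v0 = (c ^ p) • v0 := by rw [one_smul]; exact h4
      exact (smul_left_injective k hv0 h5).symm
    have h4 : c = 1 := by
      have h5 : (c - 1) ^ p = 0 := by rw [sub_pow_char, h3, one_pow, sub_self]
      exact sub_eq_zero.1 (pow_eq_zero_iff hpp.ne_zero |>.1 h5)
    have h5 : ((z : Mˣ) : M) = 1 := by
      apply hρ
      rw [hc, h4, one_smul]
      rfl
    have h6 : z = 1 := Subtype.ext (Units.ext h5)
    rw [h6, orderOf_one] at hz
    exact hpp.one_lt.ne hz
  -- the summand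
  let W : Submodule k (⨂[k] _ : Fin n, V) := Submodule.span k (Set.range fun g : Mˣ => T (g : M) X)
  have hXW : X ∈ W := by
    refine Submodule.subset_span ⟨1, ?_⟩
    show T ((1 : Mˣ) : M) X = X
    rw [Units.val_one, map_one]
    rfl
  have hWT : ∀ (g : Mˣ), ∀ w ∈ W, T (g : M) w ∈ W := by
    intro g w hw
    induction hw using Submodule.span_induction with
    | mem w hw =>
      obtain ⟨h, rfl⟩ := hw
      refine Submodule.subset_span ⟨g * h, ?_⟩
      show T ((g * h : Mˣ) : M) X = T (g : M) (T (h : M) X)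
      rw [Units.val_mul, map_mul]
      rfl
    | zero => rw [map_zero]; exact W.zero_mem
    | add a b _ _ ha hb => rw [map_add]; exact W.add_mem ha hb
    | smul c a _ ha => rw [map_smul]; exact W.smul_mem c ha
  have hW0 : ∀ m : M, ¬ IsUnit m → ∀ w ∈ W, T m w = 0 := by
    intro m hm w hw
    induction hw using Submodule.span_induction with
    | mem w hw =>
      obtain ⟨h, rfl⟩ := hw
      show T m (T (h : M) X) = 0
      have h1 : T m (T (h : M) X) = T (m * h) X := by
        rw [map_mul]
        rfl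
      rw [h1]
      exact hTX _ (unit_not_mul hm h)
    | zero => rw [map_zero]
    | add a b _ _ ha hb => rw [map_add, ha, hb, add_zero]
    | smul c a _ ha => rw [map_smul, ha, smul_zero]
  let σ : Representation k Mˣ W :=
    { toFun := fun g => (T (g : M)).restrict (hWT g)
      map_one' := by
        refine LinearMap.ext fun w => Subtype.ext ?_
        show T ((1 : Mˣ) : M) w = w
        rw [Units.val_one, map_one]
        rfl
      map_mul' := by
        intro a b
        refine LinearMap.ext fun w => Subtype.ext ?_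
        show T ((a * b : Mˣ) : M) w = T (a : M) (T (b : M) w)
        rw [Units.val_mul, map_mul]
        rfl }
  have hσ : ∀ (m : M) (w : W), ((ind σ m w : W) : ⨂[k] _ : Fin n, V) = T m w := by
    intro m w
    by_cases hm : IsUnit m
    · have h1 : ind σ m = σ hm.unit := dif_pos hm
      rw [h1]
      rfl
    · have h1 : ind σ m = 0 := dif_neg hm
      rw [h1, hW0 m hm w w.2]
      rfl
  -- the projection
  let π : (⨂[k] _ : Fin n, V) →ₗ[k] (⨂[k] _ : Fin n, V) :=
    (Nat.card Z : k)⁻¹ • ∑ g : Mˣ, (Ft ∘ₗ T ((g⁻¹ : Mˣ) : M)).smulRight (T (g : M) X)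
  have hπ : ∀ u, π u = (Nat.card Z : k)⁻¹ • ∑ g : Mˣ, Ft (T ((g⁻¹ : Mˣ) : M) u) • T (g : M) X := by
    intro u
    simp only [π, LinearMap.smul_apply, LinearMap.sum_apply, LinearMap.smulRight_apply,
      LinearMap.comp_apply]
  have hπW : ∀ u, π u ∈ W := by
    intro u
    rw [hπ]
    refine W.smul_mem _ (W.sum_mem fun g _ => W.smul_mem _ ?_)
    exact hWT g X hXW
  have hπg : ∀ (h : Mˣ) (u), π (T (h : M) u) = T (h : M) (π u) := by
    intro h u
    rw [hπ, hπ, map_smul, map_sum]
    congr 1
    refine Fintype.sum_equiv (Equiv.mulLeft h⁻¹) _ _ fun g => ?_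
    rw [map_smul]
    show Ft (T ((g⁻¹ : Mˣ) : M) (T (h : M) u)) • T (g : M) X =
      Ft (T (((h⁻¹ * g)⁻¹ : Mˣ) : M) u) • T (h : M) (T ((h⁻¹ * g : Mˣ) : M) X)
    have e1 : T ((g⁻¹ : Mˣ) : M) (T (h : M) u) = T (((h⁻¹ * g)⁻¹ : Mˣ) : M) u := by
      rw [mul_inv_rev, inv_inv, Units.val_mul, map_mul]
      rfl
    have e2 : T (h : M) (T ((h⁻¹ * g : Mˣ) : M) X) = T (g : M) X := by
      have : T (h : M) (T ((h⁻¹ * g : Mˣ) : M) X) = T ((h * (h⁻¹ * g) : Mˣ) : M) X := by
        rw [Units.val_mul h, map_mul]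
        rfl
      rw [this, mul_inv_cancel_left]
    rw [e1, e2]
  have hπm : ∀ (m : M) (u), π (T m u) = T m (π u) := by
    intro m u
    by_cases hm : IsUnit m
    · obtain ⟨h, rfl⟩ := hm
      exact hπg h u
    · rw [hW0 m hm _ (hπW u), hπ]
      have : ∀ g : Mˣ, Ft (T ((g⁻¹ : Mˣ) : M) (T m u)) = 0 := by
        intro g
        have h1 : T ((g⁻¹ : Mˣ) : M) (T m u) = T (((g⁻¹ : Mˣ) : M) * m) u := by
          rw [map_mul]
          rfl
        rw [h1]
        exact LinearMap.congr_fun (hFT _ (not_unit_mul hm g⁻¹)) u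
      simp only [this, zero_smul, Finset.sum_const_zero, smul_zero]
  have hπX : π X = X := by
    rw [hπ]
    have h1 : ∀ g : Mˣ, Ft (T ((g⁻¹ : Mˣ) : M) X) • T (g : M) X = if g ∈ Z then X else 0 := by
      intro g
      by_cases hg : g ∈ Z
      · rw [if_pos hg]
        obtain ⟨c, hc⟩ := (hZ g⁻¹).1 (Z.inv_mem hg)
        have h2 : ∀ y : Fin n → V, T ((g⁻¹ : Mˣ) : M) (PiTensorProduct.tprod k y) =
            (c ^ n) • PiTensorProduct.tprod k y := by
          intro y
          rw [hT, tensorPow_tprod, hc]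
          show PiTensorProduct.tprod k (fun i => c • y i) = _
          rw [MultilinearMap.map_smul_univ (PiTensorProduct.tprod k) (fun _ => c) y]
          simp
        have h3 : T ((g⁻¹ : Mˣ) : M) X = (c ^ n) • X := h2 x
        rw [h3, map_smul, hFtX, smul_eq_mul, mul_one, ← map_smul, ← h3]
        have h4 : T (g : M) (T ((g⁻¹ : Mˣ) : M) X) = T (((g * g⁻¹ : Mˣ)) : M) X := by
          rw [Units.val_mul, map_mul]
          rfl
        rw [h4, mul_inv_cancel, Units.val_one, map_one]
        rfl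
      · rw [if_neg hg]
        have hg' : g⁻¹ ∉ Z := fun h => hg (inv_mem_iff.1 h)
        obtain ⟨i, hi⟩ := h3 g⁻¹ (fun h => hg' ((hZ _).2 h))
        have h2 : Ft (T ((g⁻¹ : Mˣ) : M) X) = 0 := by
          rw [hX, hT, tensorPow_tprod, hFt]
          exact Finset.prod_eq_zero (Finset.mem_univ i) hi
        rw [h2, zero_smul]
    simp only [h1]
    rw [← Finset.sum_filter, Finset.sum_const, ← Nat.cast_smul_eq_nsmul k, smul_smul]
    have h2 : (Finset.univ.filter fun g : Mˣ => g ∈ Z).card = Nat.card Z := by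
      rw [Nat.card_eq_fintype_card, Fintype.card_subtype]
    rw [h2, inv_mul_cancel₀ hZk, one_smul]
  have hπid : ∀ w ∈ W, π w = w := by
    intro w hw
    induction hw using Submodule.span_induction with
    | mem w hw =>
      obtain ⟨h, rfl⟩ := hw
      show π (T (h : M) X) = T (h : M) X
      rw [hπg, hπX]
    | zero => rw [map_zero]
    | add a b _ _ ha hb => rw [map_add, ha, hb]
    | smul c a _ ha => rw [map_smul, ha]
  refine ⟨W, ?_, FiniteDimensional.span_of_finite k (Set.finite_range _), σ, W.subtype,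
    π.codRestrict W hπW, ?_, ?_, ?_⟩
  · refine ⟨⟨X, hXW⟩, 0, fun h => ?_⟩
    have h1 : X = 0 := congrArg Subtype.val h
    rw [h1, map_zero] at hFtX
    exact zero_ne_one hFtX
  · intro m
    refine LinearMap.ext fun w => ?_
    exact hσ m w
  · intro m
    refine LinearMap.ext fun u => Subtype.ext ?_
    show π (T m u) = _
    rw [hπm]
    exact (hσ m ⟨π u, hπW u⟩).symm
  · refine LinearMap.ext fun w => Subtype.ext ?_
    exact hπid w w.2

/-- A functional separating a vector from a subspace. -/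
theorem exists_functional (p : Submodule k V) (x : V) (hx : x ∉ p) :
    ∃ F : V →ₗ[k] k, F x = 1 ∧ ∀ y ∈ p, F y = 0 := by
  obtain ⟨f, hf, hf'⟩ := p.exists_dual_map_eq_bot_of_notMem hx inferInstance
  refine ⟨(f x)⁻¹ • f, ?_, fun y hy => ?_⟩
  · show (f x)⁻¹ * f x = 1
    exact inv_mul_cancel₀ hf
  · have h1 : f y ∈ p.map f := ⟨y, hy, rfl⟩
    rw [hf', Submodule.mem_bot] at h1
    show (f x)⁻¹ * f y = 0
    rw [h1, mul_zero]

theorem exists_pair_ker (f : V →ₗ[k] V) (hf : ¬ Function.Injective f) :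
    ∃ (x : V) (F : V →ₗ[k] k), F x = 1 ∧ f x = 0 := by
  rw [← LinearMap.ker_eq_bot, Submodule.eq_bot_iff] at hf
  push Not at hf
  obtain ⟨x, hx, hx0⟩ := hf
  obtain ⟨F, hF, -⟩ := exists_functional (⊥ : Submodule k V) x (by simpa using hx0)
  exact ⟨x, F, hF, hx⟩

theorem exists_pair_range (f : V →ₗ[k] V) (hf : ¬ Function.Surjective f) :
    ∃ (x : V) (F : V →ₗ[k] k), F x = 1 ∧ F.comp f = 0 := by
  unfold Function.Surjective at hf
  push Not at hf
  obtain ⟨x, hx⟩ := hf
  obtain ⟨F, hF, hF'⟩ := exists_functional (LinearMap.range f) x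
    (by rintro ⟨y, hy⟩; exact hx y hy)
  exact ⟨x, F, hF, LinearMap.ext fun y => hF' _ ⟨y, rfl⟩⟩

theorem exists_pair_scalar (f : V →ₗ[k] V) (hf : ¬ ∃ c : k, f = c • LinearMap.id) :
    ∃ (x : V) (F : V →ₗ[k] k), F x = 1 ∧ F (f x) = 0 := by
  have h1 : ∃ v, LinearIndependent k ![v, f v] := by
    by_contra h
    push Not at h
    exact hf (LinearMap.exists_eq_smul_id_of_forall_notLinearIndependent h)
  obtain ⟨x, hx⟩ := h1
  rw [LinearIndependent.pair_iff] at hx
  obtain ⟨F, hF, hF'⟩ := exists_functional (Submodule.span k {f x}) x (by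
    intro h
    rw [Submodule.mem_span_singleton] at h
    obtain ⟨c, hc⟩ := h
    have := hx (-1) c (by rw [hc]; simp)
    exact one_ne_zero (neg_eq_zero.1 this.1))
  exact ⟨x, F, hF, hF' _ (Submodule.mem_span_singleton_self _)⟩

end Main

/-- Let `M` be a finite monoid, `k` a field and `V` a nonzero finite-dimensional `kM`-module such
that only the identity element of `M` acts as the identity map of `V`. Then for some `n ≥ 1` there
is a nonzero `k Mˣ`-module `W` such that `Ind(W)` is a direct summand of the tensor power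
`V^{⊗ n}`: there are `kM`-linear maps `i : Ind(W) → V^{⊗ n}` and `p : V^{⊗ n} → Ind(W)` with
`p ∘ i = id`. -/
theorem result {k : Type u} [Field k] {M : Type v} [Monoid M] [Finite M]
    {V : Type w} [AddCommGroup V] [Module k V] [FiniteDimensional k V] [Nontrivial V]
    (ρ : Representation k M V) (hρ : ∀ m : M, ρ m = 1 → m = 1) :
    ∃ (n : ℕ) (_ : 1 ≤ n) (W : Type (max u w)) (_ : AddCommGroup W) (_ : Module k W)
      (_ : FiniteDimensional k W) (_ : Nontrivial W) (σ : Representation k Mˣ W)
      (i : W →ₗ[k] ⨂[k] _ : Fin n, V) (p : (⨂[k] _ : Fin n, V) →ₗ[k] W),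
        (∀ m : M, i ∘ₗ ind σ m = tensorPow ρ n m ∘ₗ i) ∧
        (∀ m : M, p ∘ₗ tensorPow ρ n m = ind σ m ∘ₗ p) ∧
        p ∘ₗ i = LinearMap.id := by
  classical
  have : Fintype M := Fintype.ofFinite _
  have : Fintype Mˣ := Fintype.ofFinite _
  -- non-units act by singular maps
  have hsing : ∀ m : M, ¬ IsUnit m → ¬ Function.Injective (ρ m) ∧ ¬ Function.Surjective (ρ m) := by
    intro m hm
    have key : ¬ Function.Injective (ρ m) := by
      intro hinj
      obtain ⟨r, hr, he⟩ : ∃ r : ℕ, 0 < r ∧ IsIdempotentElem (m ^ r) := by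
        obtain ⟨a, b, hab, hpow⟩ : ∃ a b : ℕ, a < b ∧ m ^ a = m ^ b := by
          obtain ⟨a, b, hne, h⟩ := Finite.exists_ne_map_eq_of_infinite (fun n : ℕ => m ^ n)
          rcases lt_or_gt_of_ne hne with h1 | h1
          · exact ⟨a, b, h1, h⟩
          · exact ⟨b, a, h1, h.symm⟩
        -- `m ^ (a + d) = m ^ a` with `d = b - a > 0`
        obtain ⟨d, hd, rfl⟩ : ∃ d, 0 < d ∧ b = a + d := ⟨b - a, by omega, by omega⟩
        have h1 : ∀ j c : ℕ, m ^ (a + c + j * d) = m ^ (a + c) := by
          intro j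
          induction j with
          | zero => intro c; rw [zero_mul, add_zero]
          | succ j ih =>
            intro c
            have e1 : a + c + (j + 1) * d = a + (c + d) + j * d := by ring
            rw [e1, ih (c + d)]
            have e2 : a + (c + d) = (a + d) + c := by ring
            rw [e2, pow_add, ← hpow, ← pow_add]
        refine ⟨(a + 1) * d, by positivity, ?_⟩
        show m ^ ((a + 1) * d) * m ^ ((a + 1) * d) = m ^ ((a + 1) * d)
        rw [← pow_add]
        obtain ⟨c, hc⟩ : ∃ c, (a + 1) * d = a + c := ⟨(a + 1) * d - a, by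
          have : a ≤ (a + 1) * d := by nlinarith
          omega⟩
        have h2 := h1 (a + 1) c
        rw [← hc] at h2
        exact h2
      have hinj' : Function.Injective (ρ (m ^ r)) := by
        have : ρ (m ^ r) = (ρ m) ^ r := map_pow ρ m r
        rw [this]
        clear he this
        induction r with
        | zero => exact fun _ _ h => h
        | succ r ih =>
          by_cases hr0 : r = 0
          · subst hr0
            rw [zero_add, pow_one]
            exact hinj
          · rw [pow_succ]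
            exact (ih (Nat.pos_of_ne_zero hr0)).comp hinj
      have h1 : ρ (m ^ r) = 1 := by
        refine LinearMap.ext fun v => hinj' ?_
        have h2 : ρ (m ^ r) (ρ (m ^ r) v) = ρ (m ^ r * m ^ r) v := by
          rw [map_mul]
          rfl
        rw [h2, he]
        rfl
      have h2 := hρ _ h1
      exact hm (IsUnit.of_pow_eq_one h2 hr.ne')
    exact ⟨key, fun h => key (LinearMap.injective_iff_surjective.2 h)⟩
  -- the family of vectors and functionals
  have hex : ∃ v : V, v ≠ 0 := exists_ne 0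
  have hA : ∀ m : M, ∃ y : V × (V →ₗ[k] k), y.2 y.1 = 1 ∧ (¬ IsUnit m → ρ m y.1 = 0) := by
    intro m
    by_cases hm : IsUnit m
    · obtain ⟨v, hv⟩ := hex
      obtain ⟨F, hF, -⟩ := exists_functional (⊥ : Submodule k V) v (by simpa using hv)
      exact ⟨(v, F), hF, fun h => absurd hm h⟩
    · obtain ⟨v, F, h1, h2⟩ := exists_pair_ker (ρ m) (hsing m hm).1
      exact ⟨(v, F), h1, fun _ => h2⟩
  have hB : ∀ m : M, ∃ y : V × (V →ₗ[k] k), y.2 y.1 = 1 ∧ (¬ IsUnit m → y.2.comp (ρ m) = 0) := by
    intro m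
    by_cases hm : IsUnit m
    · obtain ⟨v, hv⟩ := hex
      obtain ⟨F, hF, -⟩ := exists_functional (⊥ : Submodule k V) v (by simpa using hv)
      exact ⟨(v, F), hF, fun h => absurd hm h⟩
    · obtain ⟨v, F, h1, h2⟩ := exists_pair_range (ρ m) (hsing m hm).2
      exact ⟨(v, F), h1, fun _ => h2⟩
  have hC : ∀ g : Mˣ, ∃ y : V × (V →ₗ[k] k), y.2 y.1 = 1 ∧
      ((¬ ∃ c : k, ρ (g : M) = c • LinearMap.id) → y.2 (ρ (g : M) y.1) = 0) := by
    intro g
    by_cases hg : ∃ c : k, ρ (g : M) = c • LinearMap.id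
    · obtain ⟨v, hv⟩ := hex
      obtain ⟨F, hF, -⟩ := exists_functional (⊥ : Submodule k V) v (by simpa using hv)
      exact ⟨(v, F), hF, fun h => absurd hg h⟩
    · obtain ⟨v, F, h1, h2⟩ := exists_pair_scalar (ρ (g : M)) hg
      exact ⟨(v, F), h1, fun _ => h2⟩
  choose yA hA1 hA2 using hA
  choose yB hB1 hB2 using hB
  choose yC hC1 hC2 using hC
  let y : M ⊕ M ⊕ Mˣ → V × (V →ₗ[k] k) := Sum.elim yA (Sum.elim yB yC)
  have hy : ∀ i, (y i).2 (y i).1 = 1 := by
    rintro (m | m | g)
    · exact hA1 m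
    · exact hB1 m
    · exact hC1 g
  let n := Fintype.card (M ⊕ M ⊕ Mˣ)
  let e : M ⊕ M ⊕ Mˣ ≃ Fin n := Fintype.equivFin _
  obtain ⟨W, h1, h2, σ, i, p, h⟩ := main_construction ρ hρ n (fun i => (y (e.symm i)).1)
    (fun i => (y (e.symm i)).2) (fun i => hy _)
    (fun m hm => ⟨e (Sum.inl m), by
      show ρ m (y (e.symm (e (Sum.inl m)))).1 = 0
      rw [e.symm_apply_apply]
      exact hA2 m hm⟩)
    (fun m hm => ⟨e (Sum.inr (Sum.inl m)), by
      show (y (e.symm (e (Sum.inr (Sum.inl m))))).2.comp (ρ m) = 0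
      rw [e.symm_apply_apply]
      exact hB2 m hm⟩)
    (fun g hg => ⟨e (Sum.inr (Sum.inr g)), by
      show (y (e.symm (e (Sum.inr (Sum.inr g))))).2
        (ρ (g : M) (y (e.symm (e (Sum.inr (Sum.inr g))))).1) = 0
      rw [e.symm_apply_apply]
      exact hC2 g hg⟩)
  refine ⟨n, ?_, W, inferInstance, inferInstance, h2, h1, σ, i, p, h⟩
  exact Fintype.card_pos_iff.2 ⟨Sum.inl 1⟩

end Pool.Agent.Results.MP_09fe95_al.InducedSummand
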